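import Pool.Agent.H456.Mat.LogBasis

/-!
# Sparse bases in proper minor-closed classes
-/

namespace Pool.Agent.Results.MP_e134a3_co.LogBasis

open Pool.Agent.H456

/-- Let `F` be a finite field and `P` a minor-closed class of `F`-represented matroids that does
not contain all matroids confined to the prime subfield. Then there is `C` such that the row space
of each member with `n` elements has a basis `u 0, u 1, ...` in which `u i` has at most
`C n log (n + 1) / (i + 1)` nonzero entries. -/
theorem result (F : Type) [Field F] [Finite F] (P : MClass F) (hP : MinorClosed P)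
    (h : ∃ (n : ℕ) (V : Submodule F (Fin n → F)), Confined ⊥ V ∧ ¬ P n V) :
    ∃ C : ℕ, ∀ (n : ℕ) (U : Submodule F (Fin n → F)), P n U →
      ∃ u : Fin (Module.finrank F U) → (Fin n → F), LinearIndependent F u ∧
        Submodule.span F (Set.range u) = U ∧
        ∀ i, ({j | u i j ≠ 0}.ncard : ℝ) * ((i : ℕ) + 1) ≤ C * n * Real.log (n + 1) := by
  have := Fintype.ofFinite F
  obtain ⟨C, hC⟩ := log_bound hP h
  refine ⟨C, fun n U hU => ?_⟩
  obtain ⟨u, h1, h2, h3⟩ := sparse_basis_real hP (monotone_log_bound C) hC hU
    (Module.finrank F U) ∅ (by rw [van_empty])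
  refine ⟨u, h1, by rw [h2, van_empty], fun i => ?_⟩
  rw [ncard_eq_spt]
  exact h3 i

end Pool.Agent.Results.MP_e134a3_co.LogBasis
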