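import Pool.Agent.H456.Mat.Small

/-!
# Q1 for classes that omit a graphic and a cographic matroid
-/

namespace Pool.Agent.Results.MP_e134a3_co.OmitBoth

open Pool.Agent.H456

/-- Let `F` be a finite field and `P` a minor-closed class of `F`-represented matroids that does
not contain all represented graphic matroids and does not contain all their duals. Then there is
`K` such that each member with a nonempty ground set has a circuit or a cocircuit with at most `K`
elements, and the conclusion of Q1 holds for `P`. -/
theorem result (F : Type) [Field F] [Finite F] (P : MClass F) (hP : MinorClosed P)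
    (h₁ : OmitsGraphic P) (h₂ : OmitsCographic P) :
    (∃ K : ℕ, ∀ (n : ℕ) (U : Submodule F (Fin n → F)), P n U → 0 < n →
      ∃ v : Fin n → F, v ≠ 0 ∧ (v ∈ U ∨ v ∈ dual U) ∧ {i | v i ≠ 0}.ncard ≤ K) ∧
    Q1For P := by
  have := Fintype.ofFinite F
  obtain ⟨K, hK⟩ := small_both hP h₁ h₂
  refine ⟨⟨K, fun n U hU hn => ?_⟩, q1For_of_small P K hK⟩
  obtain ⟨v, hv0, hv, hle⟩ := hK n U hU hn
  exact ⟨v, hv0, hv, by rw [ncard_eq_spt]; exact hle⟩

end Pool.Agent.Results.MP_e134a3_co.OmitBoth
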