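import Pool.Agent.H456.Conf.Final

/-!
# Q1 with the third alternative read without scaling
-/

namespace Pool.Agent.Results.MP_e134a3_co.ScalingNeeded

open Pool.Agent.H456

/-- Let `F` be a finite field whose order is not prime. There is a proper minor-closed class `P` of
`F`-represented matroids for which the conclusion of Q1 fails: for all `k` and `t` some
`k`-connected member of `P` is not a rank-`(≤ t)` perturbation of any `N` that is a represented
frame matroid, or whose dual is one, or that is the row space of a matrix with entries in a proper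
subfield. -/
theorem result (F : Type) [Field F] [Finite F] (hF : ¬ (Nat.card F).Prime) :
    ∃ P : MClass F, MinorClosed P ∧ Proper P ∧
      ∀ k t : ℕ, ∃ (n : ℕ) (U : Submodule F (Fin n → F)), P n U ∧ KConn k U ∧
        ∀ N : Submodule F (Fin n → F), Perturb t N U →
          ¬ IsFrame N ∧ ¬ IsFrame (dual N) ∧ ∀ K : Subfield F, K ≠ ⊤ → ¬ Confined K N := by
  obtain ⟨θ, hθ⟩ : ∃ θ : F, θ ∉ (⊥ : Subfield F) := by
    by_contra h
    push Not at h
    exact Conf.bot_ne_top hF (eq_top_iff.2 fun x _ => h x)
  refine ⟨Conf.PP F, Conf.minorClosed_PP, Conf.proper_PP hθ, fun k t => ?_⟩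
  by_contra hcon
  push Not at hcon
  apply Conf.not_q1 (F := F)
  refine ⟨k, t, fun n U hU hk => ?_⟩
  obtain ⟨N, hN, h⟩ := hcon n U hU hk
  refine ⟨N, hN, ?_⟩
  by_cases h1 : IsFrame N
  · exact Or.inl h1
  · by_cases h2 : IsFrame (dual N)
    · exact Or.inr (Or.inl h2)
    · obtain ⟨K, hK, hc⟩ := h h1 h2
      exact Or.inr (Or.inr ⟨K, hK, hc⟩)

end Pool.Agent.Results.MP_e134a3_co.ScalingNeeded
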