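import Pool.Agent.H456.Mat.Sparse

/-!
# Sparse bases in classes that omit a cographic matroid
-/

namespace Pool.Agent.Results.MP_e134a3_co.SparseBasis

open Pool.Agent.H456

/-- Let `F` be a finite field and `P` a minor-closed class of `F`-represented matroids that does
not contain all duals of represented graphic matroids. Then there is `C` such that the row space of
each member with `n` elements has a basis `u 0, u 1, ...` in which `u i` has at most
`C n / (i + 1)` nonzero entries. -/
theorem result (F : Type) [Field F] [Finite F] (P : MClass F) (hP : MinorClosed P)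
    (h : OmitsCographic P) :
    ∃ C : ℕ, ∀ (n : ℕ) (U : Submodule F (Fin n → F)), P n U →
      ∃ u : Fin (Module.finrank F U) → (Fin n → F), LinearIndependent F u ∧
        Submodule.span F (Set.range u) = U ∧
        ∀ i, {j | u i j ≠ 0}.ncard * ((i : ℕ) + 1) ≤ C * n := by
  have := Fintype.ofFinite F
  obtain ⟨C, _, hC⟩ := small_cocircuit hP h
  refine ⟨C, fun n U hU => ?_⟩
  have h0 := sparse_basis hP hC hU (Module.finrank F U) ∅ (by rw [van_empty])
  obtain ⟨u, h1, h2, h3⟩ := h0
  refine ⟨u, h1, by rw [h2, van_empty], fun i => ?_⟩
  rw [ncard_eq_spt]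
  exact h3 i

end Pool.Agent.Results.MP_e134a3_co.SparseBasis
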